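import Pool.Agent.K7.H81.PD.Stm2
import Pool.Agent.K7.H81.PD.Stm3
import Pool.Agent.K7.H81.PD.Fin3
import Pool.Agent.K7.H37.PD_MAX
import Pool.Agent.K7.H66.PD_APR
import Pool.Agent.K7.H3.PD_DUA3
import Pool.Agent.K7.H99.PD_IBP
import Pool.Agent.K7.H54.PD_LPC
import Pool.Agent.K7.H21.PD_MO1
import Pool.Agent.K7.H21.PD_MO2
import Pool.Agent.K7.H71.PD_MOL
import Pool.Agent.K7.H61.PD_KAT
import Pool.Agent.K7.H10.PD_RSZ
import Pool.Agent.K7.H99.PD_CUT
import Pool.Agent.K7.H16.PD.MAS3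
import Pool.Agent.K7.H85.PD_BDY
import Pool.Agent.K7.H65.PD_UNI3
import Pool.Agent.K7.H85.PD_WSP
import Pool.Agent.K7.H1.PD_FIS
import Pool.Agent.K7.H89.PD_WEI
import Pool.Agent.K7.H54.PD_BAL
import Pool.Agent.K7.H93.PD_ON2

/-!
# The positive part of Dirichlet subsolutions with measure data (MP_7504ef_an)

Definitions: `Pool.Agent.K7.H81.PD.Stm`, `Stm3`.  Let `-Δ u ≤ μ₁ - μ₂` in `(C_0^∞(Ω̄))'`.  If the
Dirichlet problem is approximately solvable in `C_0^∞(Ω̄)` (classical for smooth bounded domains, and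
proved here for balls), then `Δ u⁺ = ν - μ₁` with a measure `ν` of total mass at most `μ₁ Ω`.  If
moreover Stampacchia's theorem holds in `Ω` (known for smooth bounded domains, and proved here for
intervals), then `u⁺ ∈ W_0^{1,1}(Ω)`.

The lemmas were proved by helper1, helper3, helper10, helper16, helper21, helper37, helper54,
helper61, helper65, helper66, helper71, helper81, helper85, helper89, helper93 and helper99 of the
team.
-/

set_option autoImplicit false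

open MeasureTheory

namespace Pool.Agent.Results.MP_7504ef_an.PositivePart

open Pool.Agent.K7.H81.PD

theorem ball_eq (c : E 1) (R : ℝ) : Metric.ball c R = Itv (c 0 - R) (c 0 + R) := by
  ext x
  rw [Metric.mem_ball, EuclideanSpace.dist_eq, Fin.sum_univ_one, Real.dist_eq, sq_abs,
    Real.sqrt_sq_eq_abs, abs_lt]
  unfold Itv
  constructor
  · rintro ⟨h1, h2⟩
    exact ⟨by linarith, by linarith⟩
  · rintro ⟨h1, h2⟩
    exact ⟨by linarith, by linarith⟩

/-- (1), (2): the positive part of a Dirichlet subsolution with measure data; (3) the first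
hypothesis holds for balls in every dimension; (4) the second one holds in dimension one. -/
theorem result :
    (∀ (N : ℕ) (Ω : Set (E N)), 1 ≤ N → IsOpen Ω → Bornology.IsBounded Ω → Appr Ω →
      ∀ (μ₁ μ₂ : Measure (E N)) (u : E N → ℝ), IsFiniteMeasure μ₁ → IsFiniteMeasure μ₂ →
      IntegrableOn u Ω → Sub Ω u μ₁ μ₂ →
      (∃ ν : Measure (E N), ν Set.univ ≤ μ₁ Ω ∧ ∀ φ, Cci Ω φ →
        ∫ x in Ω, max (u x) 0 * lap φ x = (∫ x in Ω, φ x ∂ν) - ∫ x in Ω, φ x ∂μ₁) ∧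
      (Stamp Ω → W011 Ω (fun x => max (u x) 0))) ∧
    (∀ (N : ℕ) (c : E N) (R : ℝ), 1 ≤ N → 0 < R → Appr (Metric.ball c R)) ∧
    ∀ (c : E 1) (R : ℝ), 0 < R → Stamp (Metric.ball c R) := by
  refine ⟨stFin3 Pool.Agent.K7.H37.PDMAX.t Pool.Agent.K7.H66.PDAPR.t Pool.Agent.K7.H3.PDDUA3.t
    Pool.Agent.K7.H99.PDIBP.t Pool.Agent.K7.H54.PDLPC.t Pool.Agent.K7.H21.PDMO.mo1
    Pool.Agent.K7.H21.PDMO.mo2 Pool.Agent.K7.H71.PDMOL.t Pool.Agent.K7.H61.PDKAT.t
    Pool.Agent.K7.H10.PDRSZ.t Pool.Agent.K7.H99.PDCUT.t Pool.Agent.K7.H16.PDMAS3.t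
    Pool.Agent.K7.H85.PDBDY.t Pool.Agent.K7.H65.PDUNI3.t Pool.Agent.K7.H85.PDWSP.t,
    Pool.Agent.K7.H54.PDBAL.t Pool.Agent.K7.H1.PDFIS.t Pool.Agent.K7.H89.PDWEI.t
      Pool.Agent.K7.H37.PDMAX.t, fun c R hR => ?_⟩
  rw [ball_eq]
  exact Pool.Agent.K7.H93.PDON2.t _ _ (by linarith)

end Pool.Agent.Results.MP_7504ef_an.PositivePart
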